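import Mathlib
import Pool.Agent.MP_f3dc73_nt.Mg.H30_Final

/-!
Exponential lower bound for the dimension of the space of multiple zeta values of weight k.
The multiple zeta values and the spaces Z k are defined exactly as in the frozen statement.
-/

set_option autoImplicit false

namespace Pool.Agent.Results.MP_f3dc73_nt.CubeRootBound

theorem result :
    ∀ ζ : (m : ℕ) → (Fin m → ℕ) → ℝ,
      (∀ m (n : Fin m → ℕ), ζ m n =
        ∑' k : {k : Fin m → ℕ // StrictMono k ∧ ∀ i, 0 < k i},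
          ∏ i, (((k.1 i : ℕ) : ℝ) ^ n i)⁻¹) →
    ∀ Z : ℕ → Submodule ℚ ℝ,
      (∀ w, Z w = Submodule.span ℚ {x : ℝ | ∃ m : ℕ, ∃ n : Fin m → ℕ,
          (∀ i, 1 ≤ n i) ∧ (∀ i : Fin m, (i : ℕ) + 1 = m → 2 ≤ n i) ∧
          ∑ i, n i = w ∧ x = ζ m n}) →
    ∀ k : ℕ, 2 ≤ k →
      (2 : ℝ) ^ ((k : ℝ) / 3) / (27 * (k : ℝ) ^ ((5 : ℝ) / 3))
        ≤ (Module.finrank ℚ (Z k) : ℝ) := by
  intro ζ hζ Z hZ k hk
  have h1 : ζ = MZVLB.zeta := by
    funext m n
    exact hζ m n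
  have h2 : Z k = MZVLB.Zs k := by
    rw [hZ, h1]
    rfl
  rw [h2]
  exact MZVLB.main3_real k hk

end Pool.Agent.Results.MP_f3dc73_nt.CubeRootBound
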