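import Mathlib
import Pool.Agent.MP_f3dc73_nt.Mg.H4_Final

/-!
Lower bound for the dimension of the space of multiple zeta values of weight k and depth at most d.
The multiple zeta values are defined exactly as in the frozen statement.
-/

set_option autoImplicit false

namespace Pool.Agent.Results.MP_f3dc73_nt.DepthBound

theorem result :
    ∀ ζ : (m : ℕ) → (Fin m → ℕ) → ℝ,
      (∀ m (n : Fin m → ℕ), ζ m n =
        ∑' k : {k : Fin m → ℕ // StrictMono k ∧ ∀ i, 0 < k i},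
          ∏ i, (((k.1 i : ℕ) : ℝ) ^ n i)⁻¹) →
    ∀ Z : ℕ → ℕ → Submodule ℚ ℝ,
      (∀ w d, Z w d = Submodule.span ℚ {x : ℝ | ∃ m : ℕ, ∃ n : Fin m → ℕ, m ≤ d ∧
          (∀ i, 1 ≤ n i) ∧ (∀ i : Fin m, (i : ℕ) + 1 = m → 2 ≤ n i) ∧
          ∑ i, n i = w ∧ x = ζ m n}) →
    ∀ k d : ℕ, 2 ≤ k → 1 ≤ d →
      √((((k - 2) / 3).choose ((d + 1) / 3) * ((k - 2) / 3).choose ((d + 2) / 3) : ℕ) : ℝ)
          / (((k : ℝ) - 1) * (17 * (k : ℝ) - 13))
        ≤ (Module.finrank ℚ (Z k d) : ℝ) := by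
  intro ζ hζ Z hZ k d hk hd
  have h1 : ζ = MZVLB.zeta := by
    funext m n
    exact hζ m n
  have h2 : Z k d = MZVLB.ZD k d := by
    rw [hZ, h1]
    rfl
  rw [h2]
  have h3 := MZVLB.depth_nat k d ((k - 2) / 3) ((d + 1) / 3) ((d + 2) / 3) (by omega) (by omega)
    (by omega) (by omega)
  have hk' : (2 : ℝ) ≤ k := by exact_mod_cast hk
  have h4 : (0 : ℝ) < ((k : ℝ) - 1) * (17 * (k : ℝ) - 13) :=
    mul_pos (by linarith) (by linarith)
  rw [div_le_iff₀ h4, Real.sqrt_le_left (by positivity)]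
  have h5 : ((k - 1 : ℕ) : ℝ) = (k : ℝ) - 1 := by
    rw [Nat.cast_sub (by omega)]; simp
  have h6 : ((17 * k - 13 : ℕ) : ℝ) = 17 * (k : ℝ) - 13 := by
    rw [Nat.cast_sub (by omega)]; simp
  rw [← h5, ← h6, mul_comm ((Module.finrank ℚ (MZVLB.ZD k d) : ℕ) : ℝ)]
  exact_mod_cast h3

end Pool.Agent.Results.MP_f3dc73_nt.DepthBound
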