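import Mathlib
import Pool.Agent.MP_f3dc73_nt.Z31.C

/-!
A lower bound for the dimension of the span of the products of powers of zeta(2) with odd zeta
values inside one weight.
-/

set_option autoImplicit false

namespace Pool.Agent.Results.MP_f3dc73_nt.OddZetaOverPi

theorem result : ∃ c : ℝ, 0 < c ∧ ∀ k : ℕ, Odd k → 3 ≤ k →
    c * Real.log k ≤ Module.finrank ℚ (Submodule.span ℚ {x : ℂ | ∃ r : ℕ, 2 * r + 3 ≤ k ∧
      x = riemannZeta 2 ^ r * riemannZeta ((k - 2 * r : ℕ) : ℂ)}) :=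
  ZOdd.main

end Pool.Agent.Results.MP_f3dc73_nt.OddZetaOverPi
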