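import Mathlib
import Pool.Agent.MP_f3dc73_nt.Y31.B

/-!
A lower bound with exponent two thirds for the dimension of the span of the odd zeta values.
-/

set_option autoImplicit false

namespace Pool.Agent.Results.MP_f3dc73_nt.TwoThirdsOddZeta

theorem result : ∃ c : ℝ, 0 < c ∧ ∀ n : ℕ, 2 ≤ n →
    c * ((n : ℝ) / Real.log n) ^ ((2 : ℝ) / 3) ≤ Module.finrank ℚ (Submodule.span ℚ
      {x : ℂ | ∃ j : ℕ, 1 ≤ j ∧ j ≤ n ∧ x = riemannZeta ((2 * j + 1 : ℕ) : ℂ)}) :=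
  ZDil.main

end Pool.Agent.Results.MP_f3dc73_nt.TwoThirdsOddZeta
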